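import Mathlib

set_option autoImplicit false
open Finset

/-! Counting lemmas: independent blocks of coordinates, and a greedy independent set. -/

namespace Pool.Agent.H587Z.Kempe

open Classical in
lemma count {ι κ : Type} [Fintype ι] [Fintype κ] [DecidableEq ι] [DecidableEq κ]
    (φ : ι → κ) (τ : ι → Bool) (K : Finset κ)
    (hn : ∀ b ∈ K, (univ.filter (fun i => φ i = b)).card ≤ 8) :
    ((univ.filter (fun ω : ι → Bool => ∀ b ∈ K, ∃ i, φ i = b ∧ ω i ≠ τ i)).card : ℝ) ≤
      (255 / 256) ^ K.card * 2 ^ (Fintype.card ι) := by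
  let T : ∀ b : κ, Finset ({i // φ i = b} → Bool) := fun b =>
    if b ∈ K then univ.erase (fun i => τ i.1) else univ
  have h1 : (univ.filter (fun ω : ι → Bool => ∀ b ∈ K, ∃ i, φ i = b ∧ ω i ≠ τ i)).card ≤
      (Fintype.piFinset T).card := by
    apply card_le_card_of_injOn (fun ω b i => ω i.1)
    · intro ω hω
      simp only [coe_filter, mem_univ, true_and, Set.mem_ofPred_eq] at hω
      simp only [mem_coe, Fintype.mem_piFinset, T]
      intro b
      split_ifs with hb
      · obtain ⟨i, hi, hne⟩ := hω b hb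
        refine mem_erase.2 ⟨fun h => hne ?_, mem_univ _⟩
        exact congrFun h ⟨i, hi⟩
      · exact mem_univ _
    · intro ω _ ω' _ h
      funext i
      exact congrFun (congrFun h (φ i)) ⟨i, rfl⟩
  have h2 : ∀ b, ((T b).card : ℝ) ≤
      (if b ∈ K then (255 / 256 : ℝ) else 1) * 2 ^ (Fintype.card {i // φ i = b}) := by
    intro b
    simp only [T]
    split_ifs with hb
    · rw [card_erase_of_mem (mem_univ _), card_univ, Fintype.card_fun, Fintype.card_bool]
      have h3 : Fintype.card {i // φ i = b} ≤ 8 := by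
        rw [Fintype.card_subtype]
        exact hn b hb
      have h4 : (2 : ℝ) ^ (Fintype.card {i // φ i = b}) ≤ 2 ^ 8 :=
        pow_le_pow_right₀ (by norm_num) h3
      have h5 : 1 ≤ 2 ^ (Fintype.card {i // φ i = b}) := Nat.one_le_two_pow
      rw [Nat.cast_sub h5]
      push_cast
      linarith
    · simp
  have h3 : ∑ b, Fintype.card {i // φ i = b} = Fintype.card ι := by
    rw [← Fintype.card_sigma]
    exact Fintype.card_congr (Equiv.sigmaFiberEquiv φ)
  calc _ ≤ ((Fintype.piFinset T).card : ℝ) := by exact_mod_cast h1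
    _ = ∏ b, ((T b).card : ℝ) := by rw [Fintype.card_piFinset]; push_cast; rfl
    _ ≤ ∏ b, ((if b ∈ K then (255 / 256 : ℝ) else 1) * 2 ^ (Fintype.card {i // φ i = b})) :=
        prod_le_prod (fun b _ => by positivity) (fun b _ => h2 b)
    _ = _ := by
        rw [prod_mul_distrib, prod_pow_eq_pow_sum, h3, prod_ite]
        simp [div_pow]

open Classical in
lemma greedy {α : Type} (S : Finset α) (R : α → α → Prop) (hs : ∀ a b, R a b → R b a)
    (hi : ∀ a ∈ S, ¬ R a a) (hd : ∀ a ∈ S, (S.filter (R a)).card ≤ 2) :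
    ∃ J ⊆ S, (∀ a ∈ J, ∀ b ∈ J, ¬ R a b) ∧ S.card ≤ 3 * J.card := by
  obtain ⟨J, hJ, hmax⟩ := exists_max_image
    (S.powerset.filter (fun J => ∀ a ∈ J, ∀ b ∈ J, ¬ R a b)) card ⟨∅, by simp⟩
  simp only [mem_filter, mem_powerset] at hJ hmax
  refine ⟨J, hJ.1, hJ.2, ?_⟩
  have h1 : S ⊆ J ∪ J.biUnion (fun a => S.filter (R a)) := by
    intro x hx
    by_contra hcon
    simp only [mem_union, mem_biUnion, mem_filter, not_or, not_exists, not_and] at hcon
    have h2 := hmax (insert x J) (by
      refine ⟨insert_subset hx hJ.1, ?_⟩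
      intro a ha b hb
      rw [mem_insert] at ha hb
      rcases ha with rfl | ha <;> rcases hb with rfl | hb
      · exact hi _ hx
      · exact fun h => hcon.2 b hb hx (hs _ _ h)
      · exact hcon.2 a ha hx
      · exact hJ.2 a ha b hb)
    rw [card_insert_of_notMem hcon.1] at h2
    omega
  have h2 : (J.biUnion (fun a => S.filter (R a))).card ≤ J.card * 2 :=
    card_biUnion_le_card_mul _ _ _ (fun a ha => hd a (hJ.1 ha))
  have h3 := (card_le_card h1).trans (card_union_le _ _)
  omega

end Pool.Agent.H587Z.Kempe
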