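import Mathlib
import Pool.Agent.H587Z.Kempe.Count

set_option autoImplicit false
open Finset

/-! Colour classes of two vertices; between two classes all edges but one. For a suitable choice of
the missing edges and a large number `k` of classes there is no clique minor of size `k`. -/

namespace Pool.Agent.H587Z.Kempe

variable {k : ℕ}

/-- the graph: between the classes `i` and `j` the edge from `(i, ω (i, j))` to `(j, ω (j, i))` is
missing -/
def gr (ω : Fin k × Fin k → Bool) : SimpleGraph (Fin k × Bool) where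
  Adj u v := u.1 ≠ v.1 ∧ ¬ (u.2 = ω (u.1, v.1) ∧ v.2 = ω (v.1, u.1))
  symm := ⟨fun _ _ h => ⟨h.1.symm, fun h' => h.2 ⟨h'.2, h'.1⟩⟩⟩
  loopless := ⟨fun _ h => h.1 rfl⟩

lemma gr_conn (ω : Fin k × Fin k → Bool) (i j : Fin k) (hij : i ≠ j) :
    ((gr ω).induce ({v : Fin k × Bool | v.1 = i ∨ v.1 = j} : Set (Fin k × Bool))).Connected := by
  set S : Set (Fin k × Bool) := {v | v.1 = i ∨ v.1 = j} with hS
  let a : S := ⟨(i, !ω (i, j)), Or.inl rfl⟩
  let b : S := ⟨(j, !ω (j, i)), Or.inr rfl⟩
  have ha : ∀ v : S, v.1.1 = j → ((gr ω).induce S).Adj a v := by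
    intro v hv
    refine ⟨fun e => hij (e.trans hv), fun h => ?_⟩
    have h1 : (!ω (i, j)) = ω (i, v.1.1) := h.1
    rw [hv] at h1
    simp at h1
  have hb : ∀ v : S, v.1.1 = i → ((gr ω).induce S).Adj b v := by
    intro v hv
    refine ⟨fun e => hij (e.trans hv).symm, fun h => ?_⟩
    have h1 : (!ω (j, i)) = ω (j, v.1.1) := h.1
    rw [hv] at h1
    simp at h1
  have hr : ∀ v : S, ((gr ω).induce S).Reachable a v := by
    intro v
    rcases v.2 with h | h
    · exact (ha b rfl).reachable.trans (hb v h).reachable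
    · exact (ha v h).reachable
  have : Nonempty S := ⟨a⟩
  exact ⟨fun u v => (hr u).symm.trans (hr v)⟩

open Classical in
/-- many branch sets have at most two vertices and meet pairwise different classes -/
lemma select (ω : Fin k × Fin k → Bool) (B : Fin k → Set (Fin k × Bool))
    (h1 : ∀ i, (B i).Nonempty) (h2 : ∀ i, ((gr ω).induce (B i)).Connected)
    (h3 : ∀ i j, i ≠ j → Disjoint (B i) (B j)) :
    ∃ J : Finset (Fin k), k ≤ 6 * J.card ∧ (∀ i ∈ J, (B i).toFinset.card ≤ 2) ∧
      ∀ i ∈ J, ∀ j ∈ J, ∀ u ∈ B i, ∀ v ∈ B j, u.1 = v.1 → u = v := by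
  set S : Finset (Fin k) := univ.filter (fun i => (B i).toFinset.card ≤ 2) with hS
  have hsum : ∑ i, (B i).toFinset.card ≤ 2 * k := by
    rw [← card_biUnion]
    · refine (card_le_univ _).trans ?_
      simp [mul_comm]
    · intro i _ j _ hij
      simpa using h3 i j hij
  have hlow : ∑ i : Fin k, (if (B i).toFinset.card ≤ 2 then 1 else 3) ≤
      ∑ i, (B i).toFinset.card := by
    apply sum_le_sum
    intro i _
    split_ifs with h
    · exact card_pos.2 (Set.toFinset_nonempty.2 (h1 i))
    · omega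
  rw [sum_ite, sum_const, sum_const, ← hS] at hlow
  have hc := card_filter_add_card_filter_not (s := (univ : Finset (Fin k)))
    (fun i => (B i).toFinset.card ≤ 2)
  rw [← hS, card_univ, Fintype.card_fin] at hc
  simp only [smul_eq_mul] at hlow
  have hk : k ≤ 2 * S.card := by omega
  obtain ⟨J, hJS, hJ, hcard⟩ := greedy S (fun i j => ∃ u ∈ B i, ∃ v ∈ B j, u.1 = v.1 ∧ u ≠ v)
    (by
      rintro a b ⟨u, hu, v, hv, e, ne⟩
      exact ⟨v, hv, u, hu, e.symm, ne.symm⟩)
    (by
      rintro i hi ⟨u, hu, v, hv, e, ne⟩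
      have hi2 : (B i).toFinset.card ≤ 2 := (mem_filter.1 hi).2
      obtain ⟨p⟩ := (h2 i).preconnected ⟨u, hu⟩ ⟨v, hv⟩
      cases p with
      | nil => exact ne rfl
      | @cons _ w _ h p =>
        have hadj : (gr ω).Adj u w := h
        have hwu : w.1 ≠ u := fun e' => hadj.ne e'.symm
        have hwv : w.1 ≠ v := fun e' => hadj.1 (by rw [e']; exact e)
        have hsub : ({u, v, w.1} : Finset (Fin k × Bool)) ⊆ (B i).toFinset := by
          intro x hx
          simp only [mem_insert, mem_singleton] at hx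
          rcases hx with rfl | rfl | rfl
          · simpa using hu
          · simpa using hv
          · simp
        have := card_le_card hsub
        rw [card_eq_three.2 ⟨u, v, w.1, ne, hwu.symm, hwv.symm, rfl⟩] at this
        omega)
    (by
      intro i hi
      have hi2 : (B i).toFinset.card ≤ 2 := (mem_filter.1 hi).2
      refine le_trans ?_ hi2
      have key : ∀ j, (∃ u ∈ B i, ∃ v ∈ B j, u.1 = v.1 ∧ u ≠ v) →
          ∃ u ∈ B i, (u.1, !u.2) ∈ B j := by
        intro j hj
        obtain ⟨u, hu, v, hv, e, ne⟩ := hj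
        refine ⟨u, hu, ?_⟩
        have : v = (u.1, !u.2) := by
          obtain ⟨u1, u2⟩ := u
          obtain ⟨v1, v2⟩ := v
          simp only at e
          subst e
          cases u2 <;> cases v2 <;> simp_all
        rwa [← this]
      choose! f hf1 hf2 using key
      apply card_le_card_of_injOn f
      · intro j hj
        simp only [coe_filter, Set.mem_ofPred_eq] at hj
        simpa using hf1 j hj.2
      · intro j hj j' hj' e
        simp only [coe_filter, Set.mem_ofPred_eq] at hj hj'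
        by_contra hne
        exact Set.disjoint_left.1 (h3 j j' hne) (hf2 j hj.2) (e ▸ hf2 j' hj'.2))
  refine ⟨J, by omega, fun i hi => (mem_filter.1 (hJS hi)).2, ?_⟩
  intro i hi j hj u hu v hv e
  by_contra ne
  exact hJ i hi j hj ⟨u, hu, v, hv, e, ne⟩

open Classical in
/-- the pairs of different used labels -/
noncomputable def blocks (cls : Fin k → Option (Fin k)) : Finset (Sym2 (Option (Fin k))) :=
  ((univ.image cls).erase none).offDiag.image Sym2.mk.uncurry

open Classical in
/-- the choices of missing edges compatible with a given family of small branch sets -/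
noncomputable def bad (p : (Fin k → Option (Fin k)) × (Fin k → Bool)) :
    Finset (Fin k × Fin k → Bool) :=
  univ.filter (fun ω => ∀ b ∈ blocks p.1, ∃ x : Fin k × Fin k,
    s(p.1 x.1, p.1 x.2) = b ∧ ω x ≠ p.2 x.1)

open Classical in
/-- the admissible labellings -/
noncomputable def good (k m : ℕ) : Finset ((Fin k → Option (Fin k)) × (Fin k → Bool)) :=
  univ.filter (fun p => m ≤ ((univ.image p.1).erase none).card ∧
    ∀ o, o ≠ none → (univ.filter (fun c => p.1 c = o)).card ≤ 2)

open Classical in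
lemma card_bad {m : ℕ} {p : (Fin k → Option (Fin k)) × (Fin k → Bool)} (hp : p ∈ good k m) :
    ((bad p).card : ℝ) ≤ (255 / 256) ^ (m.choose 2) * 2 ^ (k * k) := by
  obtain ⟨h1, h2⟩ := (mem_filter.1 hp).2
  have h := count (fun x : Fin k × Fin k => s(p.1 x.1, p.1 x.2)) (fun x => p.2 x.1) (blocks p.1)
    (by
      intro b hb
      obtain ⟨⟨x, y⟩, hxy, rfl⟩ := mem_image.1 hb
      rw [mem_offDiag] at hxy
      have hx := h2 x (mem_erase.1 hxy.1).1
      have hy := h2 y (mem_erase.1 hxy.2.1).1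
      have hsub : (univ.filter (fun z : Fin k × Fin k =>
          s(p.1 z.1, p.1 z.2) = Sym2.mk.uncurry (x, y))) ⊆
          (univ.filter (fun c => p.1 c = x)) ×ˢ (univ.filter (fun c => p.1 c = y)) ∪
          (univ.filter (fun c => p.1 c = y)) ×ˢ (univ.filter (fun c => p.1 c = x)) := by
        intro z hz
        have hz' : s(p.1 z.1, p.1 z.2) = s(x, y) := (mem_filter.1 hz).2
        rw [Sym2.eq_iff] at hz'
        simpa using hz'
      refine (card_le_card hsub).trans ((card_union_le _ _).trans ?_)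
      rw [card_product, card_product]
      have a := Nat.mul_le_mul hx hy
      have b := Nat.mul_le_mul hy hx
      omega)
  have hb : m.choose 2 ≤ (blocks p.1).card := by
    rw [blocks, Sym2.card_image_offDiag]
    exact Nat.choose_le_choose 2 h1
  have h4 : (255 / 256 : ℝ) ^ (blocks p.1).card ≤ (255 / 256) ^ (m.choose 2) :=
    pow_le_pow_of_le_one (by norm_num) (by norm_num) hb
  rw [Fintype.card_prod, Fintype.card_fin] at h
  calc _ ≤ (255 / 256 : ℝ) ^ (blocks p.1).card * 2 ^ (k * k) := by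
        convert h using 3
        ext ω
        simp [bad]
    _ ≤ _ := by gcongr

open Classical in
lemma exists_omega {m : ℕ} (h : ((k + 1 : ℝ) * 2) ^ k * (255 / 256) ^ (m.choose 2) < 1) :
    ∃ ω : Fin k × Fin k → Bool, ∀ p ∈ good k m, ω ∉ bad p := by
  by_contra hcon
  push Not at hcon
  have h1 : (univ : Finset (Fin k × Fin k → Bool)) ⊆ (good k m).biUnion bad := by
    intro ω _
    obtain ⟨p, hp, hω⟩ := hcon ω
    exact mem_biUnion.2 ⟨p, hp, hω⟩
  have h2 := (card_le_card h1).trans card_biUnion_le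
  have h3 : ((2 : ℝ)) ^ (k * k) ≤ ∑ p ∈ good k m, ((bad p).card : ℝ) := by
    simp only [card_univ, Fintype.card_fun, Fintype.card_bool, Fintype.card_prod,
      Fintype.card_fin] at h2
    exact_mod_cast h2
  have h4 : ∑ p ∈ good k m, ((bad p).card : ℝ) ≤
      (good k m).card • ((255 / 256 : ℝ) ^ (m.choose 2) * 2 ^ (k * k)) :=
    sum_le_card_nsmul _ _ _ (fun p hp => card_bad hp)
  have h5 : ((good k m).card : ℝ) ≤ ((k + 1 : ℝ) * 2) ^ k := by
    have := card_le_univ (good k m)
    simp only [Fintype.card_prod, Fintype.card_fun, Fintype.card_option, Fintype.card_fin,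
      Fintype.card_bool] at this
    rw [mul_pow]
    exact_mod_cast this
  rw [nsmul_eq_mul] at h4
  have h6 : (0 : ℝ) < 2 ^ (k * k) := by positivity
  have h7 : ((good k m).card : ℝ) * ((255 / 256 : ℝ) ^ (m.choose 2) * 2 ^ (k * k)) ≤
      ((k + 1 : ℝ) * 2) ^ k * ((255 / 256 : ℝ) ^ (m.choose 2) * 2 ^ (k * k)) := by gcongr
  nlinarith

open Classical in
lemma no_minor {m : ℕ} (hk : k = 6 * m) (ω : Fin k × Fin k → Bool)
    (hω : ∀ p ∈ good k m, ω ∉ bad p) (B : Fin k → Set (Fin k × Bool))
    (h1 : ∀ i, (B i).Nonempty) (h2 : ∀ i, ((gr ω).induce (B i)).Connected)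
    (h3 : ∀ i j, i ≠ j → Disjoint (B i) (B j))
    (h4 : ∀ i j, i ≠ j → ∃ u ∈ B i, ∃ v ∈ B j, (gr ω).Adj u v) : False := by
  obtain ⟨J, hJ, hsmall, huniq⟩ := select ω B h1 h2 h3
  let cls : Fin k → Option (Fin k) := fun c =>
    if h : ∃ i ∈ J, ∃ x, (c, x) ∈ B i then some h.choose else none
  let side : Fin k → Bool := fun c => decide (∃ i ∈ J, (c, true) ∈ B i)
  have hcls : ∀ i ∈ J, ∀ u ∈ B i, cls u.1 = some i := by
    intro i hi u hu
    have h : ∃ i ∈ J, ∃ x, (u.1, x) ∈ B i := ⟨i, hi, u.2, hu⟩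
    simp only [cls, dif_pos h]
    obtain ⟨a, x, hx⟩ := h.choose_spec
    have e := huniq _ a i hi _ hx u hu rfl
    congr 1
    by_contra hne
    exact Set.disjoint_left.1 (h3 _ _ hne) hx (e ▸ hu)
  have hcls' : ∀ c i, cls c = some i → i ∈ J ∧ ∃ x, (c, x) ∈ B i := by
    intro c i hc
    simp only [cls] at hc
    split_ifs at hc with h
    have e : h.choose = i := Option.some.inj hc
    rw [← e]
    exact h.choose_spec
  have hside : ∀ i ∈ J, ∀ u ∈ B i, side u.1 = u.2 := by
    rintro i hi ⟨c, x⟩ hu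
    cases x
    · simp only [side, decide_eq_false_iff_not]
      rintro ⟨j, hj, hv⟩
      have := huniq i hi j hj _ hu _ hv rfl
      simp at this
    · simp only [side, decide_eq_true_eq]
      exact ⟨i, hi, hu⟩
  apply hω (cls, side)
  · rw [good, mem_filter]
    refine ⟨mem_univ _, ?_, ?_⟩
    · have hsub : J.image some ⊆ (univ.image cls).erase none := by
        intro o ho
        obtain ⟨i, hi, rfl⟩ := mem_image.1 ho
        obtain ⟨u, hu⟩ := h1 i
        exact mem_erase.2 ⟨by simp, mem_image.2 ⟨u.1, mem_univ _, hcls i hi u hu⟩⟩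
      have := card_le_card hsub
      rw [card_image_of_injective _ (Option.some_injective _)] at this
      show m ≤ ((univ.image cls).erase none).card
      omega
    · intro o ho
      obtain ⟨i, rfl⟩ := Option.ne_none_iff_exists'.1 ho
      by_cases hi : i ∈ J
      · refine le_trans ?_ ((card_image_le (f := Prod.fst)).trans (hsmall i hi))
        apply card_le_card
        intro c hc
        obtain ⟨-, x, hx⟩ := hcls' c i (mem_filter.1 hc).2
        exact mem_image.2 ⟨(c, x), by simpa using hx, rfl⟩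
      · have : (univ.filter (fun c => cls c = some i)) = ∅ := by
          rw [filter_eq_empty_iff]
          intro c _ hc
          exact hi (hcls' c i hc).1
        simp only [this, card_empty]
        omega
  · rw [bad, mem_filter]
    refine ⟨mem_univ _, ?_⟩
    intro b hb
    obtain ⟨⟨x, y⟩, hxy, rfl⟩ := mem_image.1 hb
    rw [mem_offDiag] at hxy
    obtain ⟨hx, hy, hne⟩ := hxy
    obtain ⟨i, rfl⟩ := Option.ne_none_iff_exists'.1 (mem_erase.1 hx).1
    obtain ⟨j, rfl⟩ := Option.ne_none_iff_exists'.1 (mem_erase.1 hy).1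
    obtain ⟨c, -, hc⟩ := mem_image.1 (mem_erase.1 hx).2
    obtain ⟨d, -, hd⟩ := mem_image.1 (mem_erase.1 hy).2
    have hi := (hcls' c i hc).1
    have hj := (hcls' d j hd).1
    obtain ⟨u, hu, v, hv, hadj⟩ := h4 i j (fun e => hne (by rw [e]))
    by_cases e : ω (u.1, v.1) = u.2
    · refine ⟨(v.1, u.1), ?_, ?_⟩
      · simp only [hcls i hi u hu, hcls j hj v hv]
        exact Sym2.eq_swap
      · simp only [hside j hj v hv]
        exact fun e' => hadj.2 ⟨e.symm, e'.symm⟩
    · refine ⟨(u.1, v.1), ?_, ?_⟩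
      · simp only [hcls i hi u hu, hcls j hj v hv]
        rfl
      · simp only [hside i hi u hu]
        exact e

lemma numeric : ∃ m : ℕ, 1 ≤ m ∧
    ((((6 * m : ℕ) : ℝ) + 1) * 2) ^ (6 * m) * (255 / 256) ^ (m.choose 2) < 1 := by
  have key : ∀ q : ℕ, ((((6 * (2 * q + 1) : ℕ) : ℝ) + 1) * 2) ^ 6 * (255 / 256) ^ q < 1 →
      ((((6 * (2 * q + 1) : ℕ) : ℝ) + 1) * 2) ^ (6 * (2 * q + 1)) *
        (255 / 256) ^ ((2 * q + 1).choose 2) < 1 := by
    intro q h
    have e : (2 * q + 1).choose 2 = q * (2 * q + 1) := by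
      rw [Nat.choose_two_right, Nat.add_sub_cancel]
      apply Nat.div_eq_of_eq_mul_left (by norm_num)
      ring
    rw [e, pow_mul, pow_mul, ← mul_pow]
    exact pow_lt_one₀ (by positivity) h (by omega)
  refine ⟨2 * (256 * 138) + 1, by norm_num, key _ ?_⟩
  have h1 : (255 / 256 : ℝ) ^ 256 ≤ 1 / 2 := by norm_num
  have h2 : (255 / 256 : ℝ) ^ (256 * 138) ≤ (1 / 2) ^ 138 := by
    rw [pow_mul]
    gcongr
  calc _ ≤ ((((6 * (2 * (256 * 138) + 1) : ℕ) : ℝ) + 1) * 2) ^ 6 * (1 / 2) ^ 138 := by gcongr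
    _ < 1 := by norm_num

/-- a Kempe colouring of size `k` in a graph without clique minor of size `k` -/
theorem main : ∃ k : ℕ, 1 ≤ k ∧ ∃ ω : Fin k × Fin k → Bool,
    ∀ B : Fin k → Set (Fin k × Bool), (∀ i, (B i).Nonempty) →
      (∀ i, ((gr ω).induce (B i)).Connected) → (∀ i j, i ≠ j → Disjoint (B i) (B j)) →
      (∀ i j, i ≠ j → ∃ u ∈ B i, ∃ v ∈ B j, (gr ω).Adj u v) → False := by
  obtain ⟨m, hm, h⟩ := numeric
  obtain ⟨ω, hω⟩ := exists_omega (k := 6 * m) h
  exact ⟨6 * m, by omega, ω, no_minor rfl ω hω⟩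

end Pool.Agent.H587Z.Kempe
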